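import Pool.Agent.Cplx823.Log

set_option autoImplicit false

namespace Pool.Agent.Results.MP_2100e3_co.LogGrowth

open Cplx823

/-- For every real `a ≥ 1`, `B(a) ≥ (a log₂ a)/4 - 1`. -/
theorem result : ∀ a : ℝ, 1 ≤ a → ((a * Real.logb 2 a / 4 - 1 : ℝ) : EReal) ≤ B a :=
  Cplx823.main_log

end Pool.Agent.Results.MP_2100e3_co.LogGrowth
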