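import Pool.Agent.Cplx823.Final

set_option autoImplicit false

namespace Pool.Agent.Results.MP_2100e3_co.TwiceSlope

open Cplx823

/-- For every real `a > 1`, `B(a) ≥ ⌈2a⌉ - 1`. -/
theorem result : ∀ a : ℝ, 1 < a → (((⌈2 * a⌉ - 1 : ℤ) : ℝ) : EReal) ≤ B a :=
  Cplx823.main

end Pool.Agent.Results.MP_2100e3_co.TwiceSlope
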